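import Pool.Agent.Work.MP_14a437_ag.G.Defs

/-!
# N/Defs : lattices with a semidefinite form and generic central charges   (FIXED; no category theory)
-/

namespace MP_14a437_ag

/-- `B` is a symmetric positive semidefinite form on `Λ`, and `a, b` is a basis of its radical up to
finite index. -/
structure RadBasis {Λ : Type*} [AddCommGroup Λ] (B : Λ →+ Λ →+ ℤ) (a b : Λ) : Prop where
  symm : ∀ x y, B x y = B y x
  psd : ∀ x, 0 ≤ B x x
  ha : ∀ y, B a y = 0
  hb : ∀ y, B b y = 0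
  indep : ∀ m n : ℤ, m • a + n • b = 0 → m = 0 ∧ n = 0
  span : ∀ x, (∀ y, B x y = 0) → ∃ N m n : ℤ, N ≠ 0 ∧ N • x = m • a + n • b

/-- Generic central charges: `W(a), W(b)` are independent over ℝ, and `W(x) ≠ 0` for all nonzero `x`
with `B(x,x) ≤ 2`. -/
def GoodZ {Λ : Type*} [AddCommGroup Λ] (B : Λ →+ Λ →+ ℤ) (a b : Λ) (W : Λ →+ ℂ) : Prop :=
  cr (W a) (W b) ≠ 0 ∧ ∀ x, x ≠ 0 → B x x ≤ 2 → W x ≠ 0

section Vec

variable {Λ : Type*} [AddCommGroup Λ] {ι : Type*} [Fintype ι]

/-- the additive map with prescribed values on a ℤ-basis -/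
noncomputable def ofVec (bs : Module.Basis ι ℤ Λ) (w : ι → ℂ) : Λ →+ ℂ where
  toFun x := ∑ i, (bs.repr x i : ℂ) * w i
  map_zero' := by simp
  map_add' x y := by
    simp only [map_add, Finsupp.add_apply, Int.cast_add, add_mul, Finset.sum_add_distrib]

theorem ofVec_apply (bs : Module.Basis ι ℤ Λ) (w : ι → ℂ) (x : Λ) :
    ofVec bs w x = ∑ i, (bs.repr x i : ℂ) * w i := rfl

/-- the values of an additive map on the basis -/
noncomputable def toVec (bs : Module.Basis ι ℤ Λ) (W : Λ →+ ℂ) : ι → ℂ := fun i => W (bs i)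

theorem ofVec_toVec (bs : Module.Basis ι ℤ Λ) (W : Λ →+ ℂ) : ofVec bs (toVec bs W) = W := by
  ext x
  rw [ofVec_apply]
  conv_rhs => rw [← bs.sum_repr x]
  rw [map_sum]
  refine Finset.sum_congr rfl fun i _ => ?_
  rw [map_zsmul, zsmul_eq_mul]
  rfl

theorem toVec_ofVec (bs : Module.Basis ι ℤ Λ) (w : ι → ℂ) : toVec bs (ofVec bs w) = w := by
  classical
  funext i
  show ofVec bs w (bs i) = w i
  rw [ofVec_apply]
  simp [Finsupp.single_apply]

theorem ofVec_add (bs : Module.Basis ι ℤ Λ) (w w' : ι → ℂ) (x : Λ) :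
    ofVec bs (w + w') x = ofVec bs w x + ofVec bs w' x := by
  simp only [ofVec_apply, Pi.add_apply, mul_add, Finset.sum_add_distrib]

theorem ofVec_smul (bs : Module.Basis ι ℤ Λ) (c : ℂ) (w : ι → ℂ) (x : Λ) :
    ofVec bs (c • w) x = c * ofVec bs w x := by
  simp only [ofVec_apply, Pi.smul_apply, smul_eq_mul, Finset.mul_sum]
  exact Finset.sum_congr rfl fun i _ => by ring

theorem continuous_ofVec (bs : Module.Basis ι ℤ Λ) (x : Λ) : Continuous fun w : ι → ℂ => ofVec bs w x := by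
  simp only [ofVec_apply]
  fun_prop

/-- the set of generic central charges in coordinates -/
def GoodSet (bs : Module.Basis ι ℤ Λ) (B : Λ →+ Λ →+ ℤ) (a b : Λ) : Set (ι → ℂ) :=
  {w | GoodZ B a b (ofVec bs w)}

end Vec

end MP_14a437_ag
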