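import Pool.Agent.Work.MP_14a437_ag.N.Defs

/-!
# N/Gen  (M-L) : generic points by the Baire category theorem   [no category theory]

For `x ≠ 0` the map `v ↦ ofVec bs v x` is a nonzero continuous ℂ-linear functional on `ι → ℂ`, so it is
open and surjective.  For `z ∈ ℂ` the closed ray `R z = {- s z | s ≥ 0}` (a point if `z = 0`) is closed
with empty interior in ℂ, so its preimage is closed with empty interior in `ι → ℂ`; `Λ` is countable
(`bs.repr` embeds it in `ι → ℤ`), so by the Baire category theorem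
(`dense_iInter_of_isOpen`, complements of the preimages of `R (w₀ x)` and `R (w₂ x)` for `x ≠ 0`,
`B x x ≤ 2`) there is `v'` in the ball outside all of them.  If `s W₀ x + t V' x = 0` with `s, t ≥ 0` not
both zero: `t = 0` gives `W₀ x = 0`, excluded by `h0`; `t > 0` gives `V' x = -(s/t) W₀ x ∈ R (W₀ x)`.
-/

namespace MP_14a437_ag

/-- the Baire category argument -/
theorem exists_im_ne_zero {Λ : Type*} [AddCommGroup Λ] {ι : Type*} [Fintype ι]
    (bs : Module.Basis ι ℤ Λ) {κ : Type*} [Countable κ] (z : κ → ℂ) (x : κ → Λ)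
    (hz : ∀ j, z j ≠ 0) (hx : ∀ j, x j ≠ 0) (v : ι → ℂ) {r : ℝ} (hr : 0 < r) :
    ∃ v' : ι → ℂ, ‖v' - v‖ < r ∧ ∀ j, (starRingEnd ℂ (z j) * ofVec bs v' (x j)).im ≠ 0 := by
  classical
  have hcont : ∀ j, Continuous fun w : ι → ℂ =>
      (starRingEnd ℂ (z j) * ofVec bs w (x j)).im := fun j =>
    Complex.continuous_im.comp (continuous_const.mul (continuous_ofVec bs (x j)))
  have ho : ∀ j, IsOpen {w : ι → ℂ | (starRingEnd ℂ (z j) * ofVec bs w (x j)).im ≠ 0} := fun j =>
    isOpen_ne_fun (hcont j) continuous_const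
  have hd : ∀ j, Dense {w : ι → ℂ | (starRingEnd ℂ (z j) * ofVec bs w (x j)).im ≠ 0} := by
    intro j
    rw [Metric.dense_iff]
    intro w ε hε
    by_cases h : (starRingEnd ℂ (z j) * ofVec bs w (x j)).im = 0
    · obtain ⟨i, hi⟩ : ∃ i, bs.repr (x j) i ≠ 0 := by
        by_contra hcon
        push Not at hcon
        apply hx j
        rw [← bs.repr.map_eq_zero_iff]
        ext i
        exact hcon i
      set e : ι → ℂ := Pi.single i (Complex.I * z j) with he
      set t : ℝ := ε / (2 * (‖e‖ + 1)) with ht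
      have ht0 : 0 < t := by positivity
      refine ⟨w + (t : ℂ) • e, ?_, ?_⟩
      · rw [mem_ball_iff_norm, add_sub_cancel_left, norm_smul, Complex.norm_real,
          Real.norm_eq_abs, abs_of_pos ht0, ht, div_mul_eq_mul_div, div_lt_iff₀ (by positivity)]
        nlinarith [norm_nonneg e]
      · show (starRingEnd ℂ (z j) * ofVec bs (w + (t : ℂ) • e) (x j)).im ≠ 0
        have h1 : ofVec bs e (x j) = (bs.repr (x j) i : ℂ) * (Complex.I * z j) := by
          rw [ofVec_apply, Finset.sum_eq_single i]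
          · rw [he, Pi.single_eq_same]
          · intro k _ hk
            rw [he, Pi.single_eq_of_ne hk, mul_zero]
          · intro h2
            exact absurd (Finset.mem_univ i) h2
        have h2 : starRingEnd ℂ (z j) * ofVec bs (w + (t : ℂ) • e) (x j) =
            starRingEnd ℂ (z j) * ofVec bs w (x j) +
              ((t * (bs.repr (x j) i : ℝ) * Complex.normSq (z j) : ℝ) : ℂ) * Complex.I := by
          rw [ofVec_add, ofVec_smul, h1, mul_add]
          congr 1
          push_cast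
          rw [← Complex.mul_conj]
          ring
        rw [h2, Complex.add_im, h, zero_add, Complex.im_ofReal_mul, Complex.I_im, mul_one]
        have h3 : (bs.repr (x j) i : ℝ) ≠ 0 := by exact_mod_cast hi
        have h4 : Complex.normSq (z j) ≠ 0 := by
          rw [Ne, Complex.normSq_eq_zero]; exact hz j
        exact mul_ne_zero (mul_ne_zero ht0.ne' h3) h4
    · exact ⟨w, Metric.mem_ball_self hε, h⟩
  have hdense := dense_iInter_of_isOpen ho hd
  obtain ⟨v', hv', hmem⟩ := Metric.dense_iff.1 hdense v r hr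
  rw [mem_ball_iff_norm] at hv'
  exact ⟨v', hv', fun j => Set.mem_iInter.1 hmem j⟩

theorem exists_generic {Λ : Type*} [AddCommGroup Λ] {ι : Type*} [Fintype ι]
    (bs : Module.Basis ι ℤ Λ) (B : Λ →+ Λ →+ ℤ) {w₀ w₂ : ι → ℂ}
    (h0 : ∀ x, x ≠ 0 → B x x ≤ 2 → ofVec bs w₀ x ≠ 0)
    (h2 : ∀ x, x ≠ 0 → B x x ≤ 2 → ofVec bs w₂ x ≠ 0) (v : ι → ℂ) {r : ℝ} (hr : 0 < r) :
    ∃ v' : ι → ℂ, ‖v' - v‖ < r ∧ ∀ x, x ≠ 0 → B x x ≤ 2 → ∀ s t : ℝ, 0 ≤ s → 0 ≤ t →
      (s ≠ 0 ∨ t ≠ 0) → (s : ℂ) * ofVec bs w₀ x + (t : ℂ) * ofVec bs v' x ≠ 0 ∧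
        (s : ℂ) * ofVec bs w₂ x + (t : ℂ) * ofVec bs v' x ≠ 0 := by
  haveI : Countable Λ := bs.repr.injective.countable
  obtain ⟨v', hv', h⟩ := exists_im_ne_zero bs
    (κ := {x : Λ // x ≠ 0 ∧ B x x ≤ 2} × Bool)
    (fun j => if j.2 then ofVec bs w₀ j.1.1 else ofVec bs w₂ j.1.1) (fun j => j.1.1)
    (by
      rintro ⟨⟨x, hx, hB⟩, i⟩
      cases i
      · exact h2 x hx hB
      · exact h0 x hx hB)
    (fun j => j.1.2.1) v hr
  refine ⟨v', hv', fun x hx hB s t hs ht hst => ?_⟩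
  have key : ∀ z : ℂ, z ≠ 0 → (starRingEnd ℂ z * ofVec bs v' x).im ≠ 0 →
      (s : ℂ) * z + (t : ℂ) * ofVec bs v' x ≠ 0 := by
    intro z hz him h1
    by_cases ht0 : t = 0
    · rw [ht0, Complex.ofReal_zero, zero_mul, add_zero] at h1
      rcases mul_eq_zero.1 h1 with h3 | h3
      · have h4 : s = 0 := by exact_mod_cast h3
        rcases hst with h5 | h5
        · exact h5 h4
        · exact h5 ht0
      · exact hz h3
    · apply him
      have h3 : (t : ℂ) * (starRingEnd ℂ z * ofVec bs v' x) = -((s * Complex.normSq z : ℝ) : ℂ) := by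
        have h4 : (t : ℂ) * ofVec bs v' x = -((s : ℂ) * z) := eq_neg_of_add_eq_zero_right h1
        rw [mul_left_comm, h4]
        push_cast
        rw [← Complex.mul_conj]
        ring
      have h5 : t * (starRingEnd ℂ z * ofVec bs v' x).im = 0 := by
        rw [← Complex.im_ofReal_mul, h3, Complex.neg_im, Complex.ofReal_im, neg_zero]
      exact (mul_eq_zero.1 h5).resolve_left ht0
  exact ⟨key _ (h0 x hx hB) (h (⟨x, hx, hB⟩, true)), key _ (h2 x hx hB) (h (⟨x, hx, hB⟩, false))⟩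

/-- in particular nonvanishing vectors are dense (no hypothesis needed) -/
theorem exists_nonvanishing {Λ : Type*} [AddCommGroup Λ] {ι : Type*} [Fintype ι]
    (bs : Module.Basis ι ℤ Λ) (v : ι → ℂ) {r : ℝ} (hr : 0 < r) :
    ∃ v' : ι → ℂ, ‖v' - v‖ < r ∧ ∀ x : Λ, x ≠ 0 → ofVec bs v' x ≠ 0 := by
  haveI : Countable Λ := bs.repr.injective.countable
  obtain ⟨v', hv', h⟩ := exists_im_ne_zero bs (κ := {x : Λ // x ≠ 0}) (fun _ => 1)
    (fun j => j.1) (fun _ => one_ne_zero) (fun j => j.2) v hr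
  refine ⟨v', hv', fun x hx h1 => h ⟨x, hx⟩ ?_⟩
  show (starRingEnd ℂ 1 * ofVec bs v' x).im = 0
  rw [h1, mul_zero, Complex.zero_im]

end MP_14a437_ag
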