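import Pool.Agent.Work.MP_14a437_ag.N.Bound

/-!
# N/Open  (M) : genericity is open, with uniform estimates   [no category theory]

By `good_bound` for the coordinate functionals `x ↦ (bs.repr x i : ℝ)` there is `c` with
`∑ i |bs.repr x i| ≤ c ‖W x‖` for `B x x ≤ 2`, `W = ofVec bs w`.  If `‖w' - w‖ < r` (sup norm) then
`‖W' x - W x‖ ≤ r ∑ |bs.repr x i| ≤ r c ‖W x‖ ≤ (η/2) ‖W x‖` for small `r`, `η ≤ 1`; so
`‖W' x‖ ≥ ‖W x‖/2 > 0` for `x ≠ 0` and `‖W' x - W x‖ ≤ η ‖W' x‖`.  `cr (W' a) (W' b) ≠ 0` by continuity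
(`continuous_ofVec`).
-/

namespace MP_14a437_ag

private theorem no_diff {Λ : Type*} [AddCommGroup Λ] {ι : Type*} [Fintype ι]
    (bs : Module.Basis ι ℤ Λ) (w w' : ι → ℂ) (x : Λ) :
    ‖ofVec bs w' x - ofVec bs w x‖ ≤ ‖w' - w‖ * ∑ i, |((bs.repr x i : ℤ) : ℝ)| := by
  rw [ofVec_apply, ofVec_apply, ← Finset.sum_sub_distrib, Finset.mul_sum]
  refine (norm_sum_le _ _).trans (Finset.sum_le_sum fun i _ => ?_)
  rw [← mul_sub, norm_mul, Complex.norm_intCast, mul_comm]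
  refine mul_le_mul_of_nonneg_right ?_ (abs_nonneg _)
  exact norm_le_pi_norm (w' - w) i

theorem good_open {Λ : Type*} [AddCommGroup Λ] [Module.Free ℤ Λ] [Module.Finite ℤ Λ]
    {ι : Type*} [Fintype ι] (bs : Module.Basis ι ℤ Λ) {B : Λ →+ Λ →+ ℤ} {a b : Λ}
    (hB : RadBasis B a b) {w : ι → ℂ} (hw : w ∈ GoodSet bs B a b) {η : ℝ} (hη : 0 < η) :
    ∃ r : ℝ, 0 < r ∧ ∀ w' : ι → ℂ, ‖w' - w‖ < r → w' ∈ GoodSet bs B a b ∧
      ∀ x, B x x ≤ 2 → ‖ofVec bs w' x - ofVec bs w x‖ ≤ η * ‖ofVec bs w x‖ ∧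
        ‖ofVec bs w' x - ofVec bs w x‖ ≤ η * ‖ofVec bs w' x‖ := by
  classical
  have hw1 : GoodZ B a b (ofVec bs w) := hw
  choose c hc0 hc using fun i : ι =>
    good_bound hB hw1 ((Int.castAddHom ℝ).comp (bs.coord i).toAddMonoidHom)
  have hS : 0 ≤ ∑ i, c i := Finset.sum_nonneg fun i _ => hc0 i
  obtain ⟨μ, hμ0, hμη, hμ1⟩ : ∃ μ : ℝ, 0 < μ ∧ μ ≤ η ∧ μ ≤ 1 :=
    ⟨min η 1, lt_min hη one_pos, min_le_left _ _, min_le_right _ _⟩
  have hcont : Continuous fun v : ι → ℂ => cr (ofVec bs v a) (ofVec bs v b) := by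
    simp only [cr_eq]
    have h1 := continuous_ofVec bs a
    have h2 := continuous_ofVec bs b
    exact ((Complex.continuous_re.comp h1).mul (Complex.continuous_im.comp h2)).sub
      ((Complex.continuous_im.comp h1).mul (Complex.continuous_re.comp h2))
  have hop : IsOpen {v : ι → ℂ | cr (ofVec bs v a) (ofVec bs v b) ≠ 0} :=
    isOpen_ne_fun hcont continuous_const
  obtain ⟨r₂, hr₂, hball⟩ := Metric.isOpen_iff.1 hop w hw1.1
  refine ⟨min r₂ (μ / (2 * (∑ i, c i + 1))), lt_min hr₂ (by positivity), fun w' hw' => ?_⟩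
  have hr2 : ‖w' - w‖ < r₂ := lt_of_lt_of_le hw' (min_le_left _ _)
  have hr1 : ‖w' - w‖ ≤ μ / (2 * (∑ i, c i + 1)) := (lt_of_lt_of_le hw' (min_le_right _ _)).le
  have key : ∀ x, B x x ≤ 2 →
      ‖ofVec bs w' x - ofVec bs w x‖ ≤ μ / 2 * ‖ofVec bs w x‖ := by
    intro x hx
    refine (no_diff bs w w' x).trans ?_
    have h1 : ∑ i, |((bs.repr x i : ℤ) : ℝ)| ≤ (∑ i, c i) * ‖ofVec bs w x‖ := by
      rw [Finset.sum_mul]
      exact Finset.sum_le_sum fun i _ => hc i x hx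
    have h2 : ‖w' - w‖ * ∑ i, |((bs.repr x i : ℤ) : ℝ)| ≤
        μ / (2 * (∑ i, c i + 1)) * ((∑ i, c i) * ‖ofVec bs w x‖) :=
      mul_le_mul hr1 h1 (Finset.sum_nonneg fun i _ => abs_nonneg _) (by positivity)
    refine h2.trans ?_
    have h3 : μ / (2 * (∑ i, c i + 1)) * (∑ i, c i) ≤ μ / 2 := by
      rw [div_mul_eq_mul_div, div_le_div_iff₀ (by positivity) (by norm_num)]
      nlinarith
    calc μ / (2 * (∑ i, c i + 1)) * ((∑ i, c i) * ‖ofVec bs w x‖)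
        = (μ / (2 * (∑ i, c i + 1)) * (∑ i, c i)) * ‖ofVec bs w x‖ := by ring
      _ ≤ μ / 2 * ‖ofVec bs w x‖ := mul_le_mul_of_nonneg_right h3 (norm_nonneg _)
  have key2 : ∀ x, B x x ≤ 2 → ‖ofVec bs w x‖ ≤ 2 * ‖ofVec bs w' x‖ := by
    intro x hx
    have h1 := key x hx
    have h2 : ‖ofVec bs w x‖ ≤ ‖ofVec bs w' x‖ + ‖ofVec bs w' x - ofVec bs w x‖ := by
      have := norm_sub_le (ofVec bs w' x) (ofVec bs w' x - ofVec bs w x)
      rwa [sub_sub_cancel] at this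
    have h3 : μ / 2 * ‖ofVec bs w x‖ ≤ 1 / 2 * ‖ofVec bs w x‖ :=
      mul_le_mul_of_nonneg_right (by linarith) (norm_nonneg _)
    linarith
  refine ⟨⟨?_, fun x hx0 hx h0 => ?_⟩, fun x hx => ⟨?_, ?_⟩⟩
  · exact hball (by rw [Metric.mem_ball, dist_eq_norm]; exact hr2)
  · have h1 := key2 x hx
    rw [h0, norm_zero, mul_zero] at h1
    exact hw1.2 x hx0 hx (norm_le_zero_iff.1 h1)
  · exact (key x hx).trans (mul_le_mul_of_nonneg_right (by linarith) (norm_nonneg _))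
  · refine (key x hx).trans ?_
    have h1 := key2 x hx
    have h2 : μ / 2 * ‖ofVec bs w x‖ ≤ μ / 2 * (2 * ‖ofVec bs w' x‖) :=
      mul_le_mul_of_nonneg_left h1 (by positivity)
    have h3 : μ * ‖ofVec bs w' x‖ ≤ η * ‖ofVec bs w' x‖ :=
      mul_le_mul_of_nonneg_right hμη (norm_nonneg _)
    linarith

end MP_14a437_ag
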