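import Pool.Agent.Work.MP_14a437_ag.N.Defs
import Pool.Agent.Work.MP_14a437_ag.L.FinRad
import Pool.Agent.Work.MP_14a437_ag.G.Cr

/-!
# N/Bound  (M-L) : uniform support property for generic central charges   [no category theory]

Let `D = cr (W a) (W b) ≠ 0`.  For real `s, t`: `|s|, |t| ≤ c₁ ‖s W a + t W b‖` with
`c₁ = (‖W a‖ + ‖W b‖)/|D|` (`cr (W a) (s W a + t W b) = t D`, `cr (W b) (...) = - s D`, `|cr z w| ≤ ‖z‖‖w‖`).
So for radical `r`, `N r = m a + n b`: `|l r| ≤ c_l ‖W r‖` with `c_l = c₁ (|l a| + |l b|)`.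
Let `F` be the finite set of `finite_mod_radical` for `2`.  For `x` with `B x x ≤ 2` choose `f ∈ F` with
`x - f` radical: `|l x| ≤ |l f| + c_l ‖W (x - f)‖ ≤ K + c_l ‖W x‖`, `K = ∑_{f ∈ F} (|l f| + c_l ‖W f‖)`.
Apply this to the coordinates of a basis: the set of `x` with `B x x ≤ 2`, `‖W x‖ ≤ 1` is finite, and
`W x ≠ 0` for its nonzero members, so there is `δ ∈ (0,1]` with `‖W x‖ ≥ δ` for all nonzero `x` with
`B x x ≤ 2`.  So `|l x| ≤ (K/δ + c_l) ‖W x‖`.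
-/

namespace MP_14a437_ag

private theorem nb_cr_le (z w : ℂ) : |cr z w| ≤ ‖z‖ * ‖w‖ := by
  unfold cr
  refine (Complex.abs_im_le_norm _).trans ?_
  rw [norm_mul, RCLike.norm_conj]

private theorem nb_rad {Λ : Type*} [AddCommGroup Λ] {B : Λ →+ Λ →+ ℤ} {a b : Λ}
    (hB : RadBasis B a b) {W : Λ →+ ℂ} (hD : cr (W a) (W b) ≠ 0) (l : Λ →+ ℝ) :
    ∃ c : ℝ, 0 ≤ c ∧ ∀ r, (∀ y, B r y = 0) → |l r| ≤ c * ‖W r‖ := by
  have hD0 : 0 < |cr (W a) (W b)| := abs_pos.2 hD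
  refine ⟨(‖W b‖ * |l a| + ‖W a‖ * |l b|) / |cr (W a) (W b)|, by positivity, fun r hr => ?_⟩
  obtain ⟨N, m, n, hN, h⟩ := hB.span r hr
  have hW : (N : ℂ) * W r = m * W a + n * W b := by
    have h1 := congrArg W h
    rw [map_zsmul, map_add, map_zsmul, map_zsmul, zsmul_eq_mul, zsmul_eq_mul, zsmul_eq_mul] at h1
    exact h1
  have hl : (N : ℝ) * l r = m * l a + n * l b := by
    have h1 := congrArg l h
    rw [map_zsmul, map_add, map_zsmul, map_zsmul, zsmul_eq_mul, zsmul_eq_mul, zsmul_eq_mul] at h1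
    exact h1
  have hNW : ‖(N : ℂ) * W r‖ = |(N : ℝ)| * ‖W r‖ := by
    rw [norm_mul, Complex.norm_intCast]
  have h1 : |(n : ℝ)| * |cr (W a) (W b)| ≤ ‖W a‖ * (|(N : ℝ)| * ‖W r‖) := by
    have e : cr (W a) ((N : ℂ) * W r) = n * cr (W a) (W b) := by
      rw [hW]
      simp only [cr_eq, Complex.add_re, Complex.add_im, Complex.mul_re, Complex.mul_im,
        Complex.intCast_re, Complex.intCast_im]
      ring
    rw [← hNW, ← abs_mul, ← e]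
    exact nb_cr_le _ _
  have h2 : |(m : ℝ)| * |cr (W a) (W b)| ≤ ‖W b‖ * (|(N : ℝ)| * ‖W r‖) := by
    have e : cr (W b) ((N : ℂ) * W r) = -(m * cr (W a) (W b)) := by
      rw [hW]
      simp only [cr_eq, Complex.add_re, Complex.add_im, Complex.mul_re, Complex.mul_im,
        Complex.intCast_re, Complex.intCast_im]
      ring
    rw [← hNW, ← abs_mul, ← abs_neg, ← e]
    exact nb_cr_le _ _
  have hN0 : 0 < |(N : ℝ)| := abs_pos.2 (by exact_mod_cast hN)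
  have h3 : |(N : ℝ)| * |l r| ≤ |(m : ℝ)| * |l a| + |(n : ℝ)| * |l b| := by
    rw [← abs_mul, hl, ← abs_mul, ← abs_mul]
    exact abs_add_le _ _
  rw [div_mul_eq_mul_div, le_div_iff₀ hD0]
  have h4 : |(N : ℝ)| * (|l r| * |cr (W a) (W b)|) ≤
      |(N : ℝ)| * ((‖W b‖ * |l a| + ‖W a‖ * |l b|) * ‖W r‖) := by
    calc |(N : ℝ)| * (|l r| * |cr (W a) (W b)|) = (|(N : ℝ)| * |l r|) * |cr (W a) (W b)| := by ring
      _ ≤ (|(m : ℝ)| * |l a| + |(n : ℝ)| * |l b|) * |cr (W a) (W b)| :=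
          mul_le_mul_of_nonneg_right h3 hD0.le
      _ = |l a| * (|(m : ℝ)| * |cr (W a) (W b)|) + |l b| * (|(n : ℝ)| * |cr (W a) (W b)|) := by ring
      _ ≤ |l a| * (‖W b‖ * (|(N : ℝ)| * ‖W r‖)) + |l b| * (‖W a‖ * (|(N : ℝ)| * ‖W r‖)) :=
          add_le_add (mul_le_mul_of_nonneg_left h2 (abs_nonneg _))
            (mul_le_mul_of_nonneg_left h1 (abs_nonneg _))
      _ = |(N : ℝ)| * ((‖W b‖ * |l a| + ‖W a‖ * |l b|) * ‖W r‖) := by ring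
  exact le_of_mul_le_mul_left h4 hN0

private theorem nb_aff {Λ : Type*} [AddCommGroup Λ] [Module.Free ℤ Λ] [Module.Finite ℤ Λ]
    {B : Λ →+ Λ →+ ℤ} {a b : Λ} (hB : RadBasis B a b) {W : Λ →+ ℂ}
    (hD : cr (W a) (W b) ≠ 0) (l : Λ →+ ℝ) :
    ∃ K c : ℝ, 0 ≤ K ∧ 0 ≤ c ∧ ∀ x, B x x ≤ 2 → |l x| ≤ K + c * ‖W x‖ := by
  obtain ⟨c, hc0, hc⟩ := nb_rad hB hD l
  obtain ⟨F, hF⟩ := finite_mod_radical B hB.symm hB.psd 2
  refine ⟨∑ f ∈ F, (|l f| + c * ‖W f‖), c, Finset.sum_nonneg fun f _ => by positivity, hc0,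
    fun x hx => ?_⟩
  obtain ⟨f, hf, hfx⟩ := hF x hx
  have h1 := hc _ hfx
  have h2 : |l f| + c * ‖W f‖ ≤ ∑ f ∈ F, (|l f| + c * ‖W f‖) :=
    Finset.single_le_sum (f := fun f => |l f| + c * ‖W f‖) (fun f _ => by positivity) hf
  rw [map_sub, map_sub] at h1
  have h3 : |l x| ≤ |l x - l f| + |l f| := by
    have := abs_add_le (l x - l f) (l f)
    rwa [sub_add_cancel] at this
  have h4 : ‖W x - W f‖ ≤ ‖W x‖ + ‖W f‖ := norm_sub_le _ _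
  have h5 : c * ‖W x - W f‖ ≤ c * (‖W x‖ + ‖W f‖) := mul_le_mul_of_nonneg_left h4 hc0
  have h6 : c * (‖W x‖ + ‖W f‖) = c * ‖W x‖ + c * ‖W f‖ := by ring
  linarith

theorem good_bound {Λ : Type*} [AddCommGroup Λ] [Module.Free ℤ Λ] [Module.Finite ℤ Λ]
    {B : Λ →+ Λ →+ ℤ} {a b : Λ} (hB : RadBasis B a b) {W : Λ →+ ℂ} (hW : GoodZ B a b W)
    (l : Λ →+ ℝ) : ∃ c : ℝ, 0 ≤ c ∧ ∀ x, B x x ≤ 2 → |l x| ≤ c * ‖W x‖ := by
  classical
  obtain ⟨hD, hW0⟩ := hW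
  obtain ⟨δ, hδ0, hδ⟩ : ∃ δ : ℝ, 0 < δ ∧ ∀ x, x ≠ 0 → B x x ≤ 2 → δ ≤ ‖W x‖ := by
    choose K c hK0 hc0 hKc using fun i : Module.Free.ChooseBasisIndex ℤ Λ =>
      nb_aff hB hD ((Int.castAddHom ℝ).comp ((Module.Free.chooseBasis ℤ Λ).coord i).toAddMonoidHom)
    have hfin0 : (Set.univ.pi (fun i : Module.Free.ChooseBasisIndex ℤ Λ =>
        Set.Icc ⌊-(K i + c i)⌋ ⌈K i + c i⌉)).Finite := Set.Finite.pi fun _ => Set.finite_Icc _ _
    have hfin : {x : Λ | x ≠ 0 ∧ B x x ≤ 2 ∧ ‖W x‖ ≤ 1}.Finite := by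
      refine (hfin0.preimage ((Module.Free.chooseBasis ℤ Λ).equivFun.injective.injOn)).subset ?_
      rintro x ⟨-, hx2, hx1⟩
      rw [Set.mem_preimage, Set.mem_univ_pi]
      intro i
      have h2 : |(((Module.Free.chooseBasis ℤ Λ).repr x i : ℤ) : ℝ)| ≤ K i + c i * ‖W x‖ :=
        hKc i x hx2
      have h3 : c i * ‖W x‖ ≤ c i := by
        have := mul_le_mul_of_nonneg_left hx1 (hc0 i)
        linarith
      have h4 := abs_le.1 (h2.trans (add_le_add (le_refl (K i)) h3))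
      rw [Module.Basis.equivFun_apply, Set.mem_Icc]
      constructor
      · have h5 : ((⌊-(K i + c i)⌋ : ℤ) : ℝ) ≤ (((Module.Free.chooseBasis ℤ Λ).repr x i : ℤ) : ℝ) :=
          (Int.floor_le _).trans h4.1
        exact_mod_cast h5
      · have h5 : (((Module.Free.chooseBasis ℤ Λ).repr x i : ℤ) : ℝ) ≤ ((⌈K i + c i⌉ : ℤ) : ℝ) :=
          h4.2.trans (Int.le_ceil _)
        exact_mod_cast h5
    rcases Set.eq_empty_or_nonempty {x : Λ | x ≠ 0 ∧ B x x ≤ 2 ∧ ‖W x‖ ≤ 1} with he | hne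
    · refine ⟨1, one_pos, fun x hx0 hx2 => ?_⟩
      by_contra hcon
      have : x ∈ {x : Λ | x ≠ 0 ∧ B x x ≤ 2 ∧ ‖W x‖ ≤ 1} := ⟨hx0, hx2, (not_le.1 hcon).le⟩
      rw [he] at this
      exact this
    · obtain ⟨x₀, ⟨h1, h2, h3⟩, hmin⟩ := Set.exists_min_image _ (fun x => ‖W x‖) hfin hne
      refine ⟨‖W x₀‖, norm_pos_iff.2 (hW0 x₀ h1 h2), fun x hx0 hx2 => ?_⟩
      by_cases hx1 : ‖W x‖ ≤ 1
      · exact hmin x ⟨hx0, hx2, hx1⟩
      · exact h3.trans (not_le.1 hx1).le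
  obtain ⟨K, c, hK0, hc0, hKc⟩ := nb_aff hB hD l
  refine ⟨K / δ + c, by positivity, fun x hx => ?_⟩
  by_cases hx0 : x = 0
  · rw [hx0, map_zero, map_zero, abs_zero, norm_zero, mul_zero]
  · have h1 := hKc x hx
    have h2 := hδ x hx0 hx
    have h3 : K ≤ K / δ * ‖W x‖ := by
      rw [div_mul_eq_mul_div, le_div_iff₀ hδ0]
      exact mul_le_mul_of_nonneg_left h2 hK0
    rw [add_mul]
    linarith

end MP_14a437_ag
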