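import Pool.Agent.Work.MP_14a437_ag.N.Defs
import Pool.Agent.Work.MP_14a437_ag.G.Cr

/-!
# N/OConn  (M-L) : the central charges of positive orientation form a connected set  [no category theory]

1. `{(u, v) ∈ ℂ × ℂ | 0 < cr u v}` is the image of `{u ≠ 0} ×ˢ {τ | 0 < τ.im}` under the continuous map
   `(u, τ) ↦ (u, u τ)` (`cr u (u τ) = ‖u‖² τ.im`; `u ≠ 0` and `τ = v/u`).  `{u ≠ 0}` is preconnected
   (`isPreconnected_compl_singleton_of_one_lt_rank`, or `isConnected_compl_singleton_of_one_lt_rank` over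
   ℝ) and `{τ | 0 < τ.im}` is convex.
2. `a, b` are independent over ℤ, so in coordinates some minor `aᵢ bⱼ - aⱼ bᵢ ≠ 0` (if all minors vanish
   then `bᵢ a = aᵢ b` for all `i`, so `a` and `b` are dependent), so there are `p, q : ι → ℂ` (supported on
   `{i, j}`) with `ofVec bs p a = 1`, `ofVec bs p b = 0`, `ofVec bs q a = 0`, `ofVec bs q b = 1`.
3. The set is the image of `{cr u v > 0} ×ˢ {k | ofVec bs k a = 0 ∧ ofVec bs k b = 0}` (the second factor
   is convex) under the continuous map `(u, v, k) ↦ u • p + v • q + k` (`ofVec_add`, `ofVec_smul`);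
   `IsPreconnected.prod`, `IsPreconnected.image`.
-/

namespace MP_14a437_ag

theorem ofVec_single {Λ : Type*} [AddCommGroup Λ] {ι : Type*} [Fintype ι] [DecidableEq ι]
    (bs : Module.Basis ι ℤ Λ) (i : ι) (c : ℂ) (x : Λ) :
    ofVec bs (Pi.single i c) x = (bs.repr x i : ℂ) * c := by
  rw [ofVec_apply, Finset.sum_eq_single i]
  · rw [Pi.single_eq_same]
  · intro k _ hk
    rw [Pi.single_eq_of_ne hk, mul_zero]
  · intro h2
    exact absurd (Finset.mem_univ i) h2

/-- a dual pair of vectors -/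
theorem exists_dual_pair {Λ : Type*} [AddCommGroup Λ] {ι : Type*} [Fintype ι]
    (bs : Module.Basis ι ℤ Λ) (a b : Λ) (hab : ∀ m n : ℤ, m • a + n • b = 0 → m = 0 ∧ n = 0) :
    ∃ p q : ι → ℂ, ofVec bs p a = 1 ∧ ofVec bs p b = 0 ∧ ofVec bs q a = 0 ∧ ofVec bs q b = 1 := by
  classical
  obtain ⟨i, j, hD⟩ : ∃ i j, bs.repr a i * bs.repr b j - bs.repr a j * bs.repr b i ≠ 0 := by
    by_contra hcon
    push Not at hcon
    obtain ⟨i, hi⟩ : ∃ i, bs.repr a i ≠ 0 := by
      by_contra h
      push Not at h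
      have ha : a = 0 := by
        rw [← bs.repr.map_eq_zero_iff]
        ext i
        exact h i
      have := (hab 1 0 (by rw [ha]; simp)).1
      norm_num at this
    have h1 : (bs.repr b i) • a + (-(bs.repr a i)) • b = 0 := by
      rw [← bs.repr.map_eq_zero_iff]
      ext j
      simp only [map_add, map_smul, Finsupp.add_apply, Finsupp.smul_apply, smul_eq_mul,
        Finsupp.zero_apply]
      have h2 := hcon i j
      linarith
    exact hi (neg_eq_zero.1 (hab _ _ h1).2)
  have hD' : ((bs.repr a i : ℂ) * bs.repr b j - bs.repr a j * bs.repr b i) ≠ 0 := by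
    exact_mod_cast hD
  set D : ℂ := (bs.repr a i : ℂ) * bs.repr b j - bs.repr a j * bs.repr b i with hDdef
  refine ⟨Pi.single i ((bs.repr b j : ℂ) / D) + Pi.single j (-(bs.repr b i : ℂ) / D),
    Pi.single i (-(bs.repr a j : ℂ) / D) + Pi.single j ((bs.repr a i : ℂ) / D), ?_, ?_, ?_, ?_⟩
  · rw [ofVec_add, ofVec_single, ofVec_single]
    field_simp
    rw [hDdef]; ring
  · rw [ofVec_add, ofVec_single, ofVec_single]
    field_simp
    ring
  · rw [ofVec_add, ofVec_single, ofVec_single]
    field_simp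
    ring
  · rw [ofVec_add, ofVec_single, ofVec_single]
    field_simp
    rw [hDdef]; ring

theorem orient_pos_preconnected {Λ : Type*} [AddCommGroup Λ] {ι : Type*} [Fintype ι]
    (bs : Module.Basis ι ℤ Λ) (a b : Λ) (hab : ∀ m n : ℤ, m • a + n • b = 0 → m = 0 ∧ n = 0) :
    IsPreconnected {w : ι → ℂ | 0 < cr (ofVec bs w a) (ofVec bs w b)} := by
  obtain ⟨p, q, hpa, hpb, hqa, hqb⟩ := exists_dual_pair bs a b hab
  set F : (ℂ × ℂ) × (ι → ℂ) → (ι → ℂ) := fun y =>
    y.1.1 • p + (y.1.1 * y.1.2) • q + (y.2 + ((-ofVec bs y.2 a) • p + (-ofVec bs y.2 b) • q))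
    with hF
  have hFc : Continuous F := by
    have h1 : Continuous fun y : (ℂ × ℂ) × (ι → ℂ) => ofVec bs y.2 a :=
      (continuous_ofVec bs a).comp continuous_snd
    have h2 : Continuous fun y : (ℂ × ℂ) × (ι → ℂ) => ofVec bs y.2 b :=
      (continuous_ofVec bs b).comp continuous_snd
    rw [hF]
    fun_prop
  have hFa : ∀ y, ofVec bs (F y) a = y.1.1 := by
    intro y
    rw [hF]
    simp only [ofVec_add, ofVec_smul, hpa, hqa]
    ring
  have hFb : ∀ y, ofVec bs (F y) b = y.1.1 * y.1.2 := by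
    intro y
    rw [hF]
    simp only [ofVec_add, ofVec_smul, hpb, hqb]
    ring
  have hcr : ∀ u t : ℂ, cr u (u * t) = Complex.normSq u * t.im := by
    intro u t
    have h1 : starRingEnd ℂ u * (u * t) = (Complex.normSq u : ℂ) * t := by
      rw [← Complex.mul_conj]; ring
    rw [cr, h1, Complex.im_ofReal_mul]
  have himage : {w : ι → ℂ | 0 < cr (ofVec bs w a) (ofVec bs w b)} =
      F '' ((({0}ᶜ : Set ℂ) ×ˢ {t : ℂ | 0 < t.im}) ×ˢ Set.univ) := by
    ext w
    constructor
    · intro hw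
      have hw' : 0 < cr (ofVec bs w a) (ofVec bs w b) := hw
      have hne : ofVec bs w a ≠ 0 := by
        intro h
        rw [h, cr] at hw'
        simp at hw'
      have h1 : ofVec bs w a * (ofVec bs w b / ofVec bs w a) = ofVec bs w b := by
        field_simp
      refine ⟨((ofVec bs w a, ofVec bs w b / ofVec bs w a), w), ⟨⟨hne, ?_⟩, trivial⟩, ?_⟩
      · show 0 < (ofVec bs w b / ofVec bs w a).im
        rw [← h1, hcr] at hw'
        exact pos_of_mul_pos_right hw' (Complex.normSq_nonneg _)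
      · show ofVec bs w a • p + (ofVec bs w a * (ofVec bs w b / ofVec bs w a)) • q +
          (w + ((-ofVec bs w a) • p + (-ofVec bs w b) • q)) = w
        rw [h1]
        module
    · rintro ⟨y, ⟨⟨h1, h2⟩, -⟩, rfl⟩
      show 0 < cr (ofVec bs (F y) a) (ofVec bs (F y) b)
      rw [hFa, hFb, hcr]
      exact mul_pos (Complex.normSq_pos.2 h1) h2
  rw [himage]
  refine IsPreconnected.image ?_ F hFc.continuousOn
  refine IsPreconnected.prod (IsPreconnected.prod ?_ ?_) ?_
  · exact (isConnected_compl_singleton_of_one_lt_rank (by simp) (0 : ℂ)).isPreconnected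
  · exact (convex_halfSpace_im_gt 0).isPreconnected
  · exact convex_univ.isPreconnected

end MP_14a437_ag
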