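import Pool.Agent.Work.MP_14a437_ag.N.LocC
import Pool.Agent.Work.MP_14a437_ag.N.OConn
import Pool.Agent.Work.MP_14a437_ag.N.Bound

/-!
# N/Conn  (M) : generic central charges of one orientation are joined by a path  [no category theory]

First `0 < cr` for both (the negative case follows by exchanging `a` and `b`: `GoodSet bs B a b =
GoodSet bs B b a` by `cr_symm`).  Let `O = {w | 0 < cr (ofVec bs w a) (ofVec bs w b)}`, open and
preconnected (`orient_pos_preconnected`).  `T = {u ∈ O | ∃ r > 0, ∀ w ∈ GoodSet, ‖w - u‖ < r →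
JoinedIn GoodSet w₀ w}` and `T' = {u ∈ O | ∃ r > 0, ∀ w ∈ GoodSet, ‖w - u‖ < r → ¬ JoinedIn GoodSet w₀ w}`
are open, cover `O` (`good_locally_joined`: in a small ball all members of `GoodSet` are joined to each
other) and are disjoint (near every `u ∈ O` there are members of `GoodSet`: `exists_nonvanishing`, and
`cr ≠ 0` near `u`).  `w₀ ∈ T`, so `O ⊆ T` and `w₂ ∈ T`, so `JoinedIn GoodSet w₀ w₂` (take `w = w₂`).
-/

namespace MP_14a437_ag

theorem good_joined_pos {Λ : Type*} [AddCommGroup Λ] {ι : Type*} [Fintype ι]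
    (bs : Module.Basis ι ℤ Λ) {B : Λ →+ Λ →+ ℤ} {a b : Λ}
    (hab : ∀ m n : ℤ, m • a + n • b = 0 → m = 0 ∧ n = 0) {w₀ w₂ : ι → ℂ}
    (h0 : w₀ ∈ GoodSet bs B a b) (h2 : w₂ ∈ GoodSet bs B a b)
    (hs0 : 0 < cr (ofVec bs w₀ a) (ofVec bs w₀ b)) (hs2 : 0 < cr (ofVec bs w₂ a) (ofVec bs w₂ b)) :
    JoinedIn (GoodSet bs B a b) w₀ w₂ := by
  by_contra hcon
  set U : Set (ι → ℂ) := {u | ∃ r : ℝ, 0 < r ∧ ∀ w ∈ GoodSet bs B a b, ‖w - u‖ < r →
    JoinedIn (GoodSet bs B a b) w₀ w} with hU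
  set V : Set (ι → ℂ) := {u | ∃ r : ℝ, 0 < r ∧ ∀ w ∈ GoodSet bs B a b, ‖w - u‖ < r →
    ¬ JoinedIn (GoodSet bs B a b) w₀ w} with hV
  have hopen : ∀ P : (ι → ℂ) → Prop, IsOpen {u | ∃ r : ℝ, 0 < r ∧ ∀ w ∈ GoodSet bs B a b,
      ‖w - u‖ < r → P w} := by
    intro P
    rw [Metric.isOpen_iff]
    rintro u ⟨r, hr, h⟩
    refine ⟨r / 2, by positivity, fun u' hu' => ⟨r / 2, by positivity, fun w hw hwu => ?_⟩⟩
    rw [mem_ball_iff_norm] at hu'
    refine h w hw ?_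
    calc ‖w - u‖ = ‖(w - u') + (u' - u)‖ := by congr 1; abel
      _ ≤ ‖w - u'‖ + ‖u' - u‖ := norm_add_le _ _
      _ < r := by linarith
  have hUo : IsOpen U := hopen _
  have hVo : IsOpen V := hopen _
  have hcover : {w : ι → ℂ | 0 < cr (ofVec bs w a) (ofVec bs w b)} ⊆ U ∪ V := by
    intro u hu
    obtain ⟨r, hr, h⟩ := good_locally_joined bs B a b u (ne_of_gt hu)
    by_cases h1 : ∀ w ∈ GoodSet bs B a b, ‖w - u‖ < r → JoinedIn (GoodSet bs B a b) w₀ w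
    · exact Or.inl ⟨r, hr, h1⟩
    · push Not at h1
      obtain ⟨w₁, hw₁, hw₁u, hw₁j⟩ := h1
      exact Or.inr ⟨r, hr, fun w hw hwu hj => hw₁j (hj.trans (h w hw w₁ hw₁ hwu hw₁u))⟩
  have hU0 : w₀ ∈ U := by
    obtain ⟨r, hr, h⟩ := good_locally_joined bs B a b w₀ (ne_of_gt hs0)
    exact ⟨r, hr, fun w hw hwu => h w₀ h0 w hw (by simpa using hr) hwu⟩
  have hV2 : w₂ ∈ V := by
    rcases hcover hs2 with ⟨r, hr, h⟩ | h
    · exact absurd (h w₂ h2 (by simpa using hr)) hcon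
    · exact h
  obtain ⟨u, hu, ⟨r₁, hr₁, h1⟩, ⟨r₂, hr₂, h2'⟩⟩ := orient_pos_preconnected bs a b hab U V hUo hVo
    hcover ⟨w₀, hs0, hU0⟩ ⟨w₂, hs2, hV2⟩
  have hcont : Continuous fun w : ι → ℂ => cr (ofVec bs w a) (ofVec bs w b) :=
    Complex.continuous_im.comp
      ((Complex.continuous_conj.comp (continuous_ofVec bs a)).mul (continuous_ofVec bs b))
  obtain ⟨r₃, hr₃, h3⟩ := Metric.isOpen_iff.1
    (isOpen_ne_fun hcont (continuous_const (y := (0 : ℝ)))) u (ne_of_gt hu)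
  obtain ⟨v', hv', hnz⟩ := exists_nonvanishing bs u (lt_min hr₁ (lt_min hr₂ hr₃))
  have hv1 : ‖v' - u‖ < r₁ := hv'.trans_le (min_le_left _ _)
  have hv2 : ‖v' - u‖ < r₂ := hv'.trans_le ((min_le_right _ _).trans (min_le_left _ _))
  have hv3 : ‖v' - u‖ < r₃ := hv'.trans_le ((min_le_right _ _).trans (min_le_right _ _))
  have hgood : v' ∈ GoodSet bs B a b :=
    ⟨h3 (by rw [mem_ball_iff_norm]; exact hv3), fun x hx _ => hnz x hx⟩
  exact h2' v' hgood hv2 (h1 v' hgood hv1)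

theorem good_joined {Λ : Type*} [AddCommGroup Λ] {ι : Type*} [Fintype ι]
    (bs : Module.Basis ι ℤ Λ) {B : Λ →+ Λ →+ ℤ} {a b : Λ} (hB : RadBasis B a b) {w₀ w₂ : ι → ℂ}
    (h0 : w₀ ∈ GoodSet bs B a b) (h2 : w₂ ∈ GoodSet bs B a b)
    (hs : 0 < cr (ofVec bs w₀ a) (ofVec bs w₀ b) * cr (ofVec bs w₂ a) (ofVec bs w₂ b)) :
    JoinedIn (GoodSet bs B a b) w₀ w₂ := by
  have hsymm : GoodSet bs B a b = GoodSet bs B b a := by
    ext w
    show GoodZ B a b (ofVec bs w) ↔ GoodZ B b a (ofVec bs w)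
    unfold GoodZ
    rw [cr_symm (ofVec bs w a) (ofVec bs w b), neg_ne_zero]
  rcases lt_or_gt_of_ne (left_ne_zero_of_mul hs.ne') with h | h
  · have h' : cr (ofVec bs w₂ a) (ofVec bs w₂ b) < 0 := by
      by_contra hcon
      push Not at hcon
      nlinarith [mul_nonpos_of_nonpos_of_nonneg h.le hcon]
    rw [hsymm] at h0 h2 ⊢
    refine good_joined_pos bs (fun m n hmn => ?_) h0 h2 ?_ ?_
    · rw [add_comm] at hmn
      exact (hB.indep n m hmn).symm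
    · rw [cr_symm]; linarith
    · rw [cr_symm]; linarith
  · exact good_joined_pos bs hB.indep h0 h2 h (pos_of_mul_pos_right hs h.le)

end MP_14a437_ag
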