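import Pool.Agent.Work.MP_14a437_ag.N.Gen

/-!
# N/LocC  (M) : local connectedness of the generic locus   [no category theory]

`w ↦ cr (ofVec bs w a) (ofVec bs w b)` is continuous, so there is a ball `ball u r` on which it does not
vanish.  Let `w₀, w₂ ∈ GoodSet ∩ ball u r`, `v'` from `exists_generic` with center `u`, radius `r`.  The
segments `[w₀, v']` and `[v', w₂]` stay in the ball (convex) and in `GoodSet`
(`ofVec bs ((1-t) w₀ + t v') x = (1-t) ofVec bs w₀ x + t ofVec bs v' x ≠ 0`).  `JoinedIn` for the two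
segments: `JoinedIn.ofLine` or `AffineMap.lineMap`; `JoinedIn.trans`.
-/

namespace MP_14a437_ag

theorem good_locally_joined {Λ : Type*} [AddCommGroup Λ] {ι : Type*} [Fintype ι]
    (bs : Module.Basis ι ℤ Λ) (B : Λ →+ Λ →+ ℤ) (a b : Λ) (u : ι → ℂ)
    (hu : cr (ofVec bs u a) (ofVec bs u b) ≠ 0) :
    ∃ r : ℝ, 0 < r ∧ ∀ w₀ ∈ GoodSet bs B a b, ∀ w₂ ∈ GoodSet bs B a b, ‖w₀ - u‖ < r →
      ‖w₂ - u‖ < r → JoinedIn (GoodSet bs B a b) w₀ w₂ := by
  have hcont : Continuous fun w : ι → ℂ => cr (ofVec bs w a) (ofVec bs w b) :=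
    Complex.continuous_im.comp
      ((Complex.continuous_conj.comp (continuous_ofVec bs a)).mul (continuous_ofVec bs b))
  obtain ⟨r, hr, h1⟩ := Metric.isOpen_iff.1
    (isOpen_ne_fun hcont (continuous_const (y := (0 : ℝ)))) u hu
  refine ⟨r, hr, fun w₀ h0 w₂ h2 hw0 hw2 => ?_⟩
  obtain ⟨v', hv', hgen⟩ := exists_generic bs B h0.2 h2.2 u hr
  have hv'b : v' ∈ Metric.ball u r := by rw [mem_ball_iff_norm]; exact hv'
  have hseg : ∀ w : ι → ℂ, ‖w - u‖ < r → (∀ x, x ≠ 0 → B x x ≤ 2 → ∀ s t : ℝ, 0 ≤ s → 0 ≤ t →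
      (s ≠ 0 ∨ t ≠ 0) → (s : ℂ) * ofVec bs w x + (t : ℂ) * ofVec bs v' x ≠ 0) →
      JoinedIn (GoodSet bs B a b) w v' := by
    intro w hw hgw
    have hwb : w ∈ Metric.ball u r := by rw [mem_ball_iff_norm]; exact hw
    refine JoinedIn.ofLine (f := fun t : ℝ => (1 - t) • w + t • v') ?_ (by simp) (by simp) ?_
    · exact Continuous.continuousOn (by fun_prop)
    · rintro _ ⟨t, ht, rfl⟩
      have h3 : (1 - t) • w + t • v' ∈ Metric.ball u r :=
        convex_ball u r hwb hv'b (by linarith [ht.2]) ht.1 (by ring)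
      refine ⟨h1 h3, fun x hx hB => ?_⟩
      have h4 : ofVec bs ((1 - t) • w + t • v') x =
          ((1 - t : ℝ) : ℂ) * ofVec bs w x + (t : ℂ) * ofVec bs v' x := by
        have h5 : (1 - t) • w = ((1 - t : ℝ) : ℂ) • w := by
          funext i; simp
        have h6 : t • v' = (t : ℂ) • v' := by
          funext i; simp
        rw [h5, h6, ofVec_add, ofVec_smul, ofVec_smul]
      rw [h4]
      refine hgw x hx hB (1 - t) t (by linarith [ht.2]) ht.1 ?_
      by_cases h : t = 0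
      · left; rw [h]; norm_num
      · right; exact h
  exact (hseg w₀ hw0 fun x hx hB s t hs ht hst => (hgen x hx hB s t hs ht hst).1).trans
    (hseg w₂ hw2 fun x hx hB s t hs ht hst => (hgen x hx hB s t hs ht hst).2).symm

end MP_14a437_ag
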